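import Pool.Agent.H353.FV.CB

set_option autoImplicit false
set_option linter.unusedVariables false

/-! Vaught's conjecture and Rees matrix semigroups: the reduction. -/

namespace Pool.Agent.H353.FV

open FirstOrder FirstOrder.Language
open Pool.Agent.W889.FO
open Pool.Agent.W889.FO.StA (FD.all1 FD.ex1)
open Pool.Agent.W889.FO.StE (LG gd)
open Pool.Agent.W889.SD (Big)
open Pool.Agent.TH686.FO
open Pool.Agent.N649.SV
open Pool.Agent.H4.VG
open Pool.Agent.H4.FV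

section Def

variable {p : ℕ} [Fact p.Prime] {α : Type} {q t : LR.Structure ℕ → (α → ℕ) → ℕ}

theorem fd_Fs (hq : FT q) (ht : FT t) :
    FD St0.W (fun S v => Fs (ml S) (q S v) (t S v)) :=
  (eqT (ht.mul hq) ht).and (eqT (hq.mul ht) hq)

theorem fd_Gs (hq : FT q) (ht : FT t) :
    FD St0.W (fun S v => Gs (ml S) (q S v) (t S v)) :=
  (eqT (hq.mul ht) ht).and (eqT (ht.mul hq) hq)

theorem fd_Ps0 : FD St0.W (fun S (h : ZMod p → ℕ) => Ps p (ml S) h) := by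
  have hp : NeZero p := ⟨(Fact.out : p.Prime).ne_zero⟩
  refine FD.and (FD.fin fun a => FD.fin fun b => (eqT (FT.var _) (FT.var _)).imp (FD.const _)) <|
    FD.and (FD.fin fun a => FD.fin fun b => eqT ((FT.var _).mul (FT.var _)) (FT.var _)) <|
    FD.and ?_ <| FD.and ?_ <| FD.and ?_ <| FD.and ?_ <| FD.and ?_ ?_
  · refine FD.all (P := fun S h (w : Fin 4 → ℕ) => Fs (ml S) (h 0) (w 0) →
      Gs (ml S) (h 0) (w 1) → Fs (ml S) (h 0) (w 2) → Gs (ml S) (h 0) (w 3) → ∀ a b,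
        ml S (ml S (w 0) (h a)) (w 1) = ml S (ml S (w 2) (h b)) (w 3) →
        w 0 = w 2 ∧ a = b ∧ w 1 = w 3) ?_
    exact (fd_Fs (FT.var _) (FT.var _)).imp <| (fd_Gs (FT.var _) (FT.var _)).imp <|
      (fd_Fs (FT.var _) (FT.var _)).imp <| (fd_Gs (FT.var _) (FT.var _)).imp <|
      FD.fin fun a => FD.fin fun b => (eqT (((FT.var _).mul (FT.var _)).mul (FT.var _))
        (((FT.var _).mul (FT.var _)).mul (FT.var _))).imp <|
      (eqT (FT.var _) (FT.var _)).and <| (FD.const _).and (eqT (FT.var _) (FT.var _))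
  · refine FD.all1 (P := fun S h x => ∃ w : Fin 2 → ℕ, Fs (ml S) (h 0) (w 0) ∧
      Gs (ml S) (h 0) (w 1) ∧ ∃ a, ml S (ml S (w 0) (h a)) (w 1) = x) ?_
    refine FD.ex (P := fun S h (w : Fin 2 → ℕ) => Fs (ml S) (h (Sum.inl 0)) (w 0) ∧
      Gs (ml S) (h (Sum.inl 0)) (w 1) ∧
        ∃ a, ml S (ml S (w 0) (h (Sum.inl a))) (w 1) = h (Sum.inr ())) ?_
    exact (fd_Fs (FT.var _) (FT.var _)).and <| (fd_Gs (FT.var _) (FT.var _)).and <|
      fd_finex fun a => eqT (((FT.var _).mul (FT.var _)).mul (FT.var _)) (FT.var _)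
  · refine FD.all (P := fun S h (w : Fin 2 → ℕ) => Fs (ml S) (h 0) (w 0) →
      Gs (ml S) (h 0) (w 1) → ml S (w 1) (w 0) = h 0 ∨ ml S (w 1) (w 0) = h 1) ?_
    exact (fd_Fs (FT.var _) (FT.var _)).imp <| (fd_Gs (FT.var _) (FT.var _)).imp <|
      (eqT ((FT.var _).mul (FT.var _)) (FT.var _)).or (eqT ((FT.var _).mul (FT.var _)) (FT.var _))
  · refine FD.all (P := fun S h (w : Fin 2 → ℕ) => Gs (ml S) (h 0) (w 0) →
      Gs (ml S) (h 0) (w 1) → (∀ f, Fs (ml S) (h 0) f → ml S (w 0) f = ml S (w 1) f) →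
        w 0 = w 1) ?_
    refine (fd_Gs (FT.var _) (FT.var _)).imp <| (fd_Gs (FT.var _) (FT.var _)).imp <|
      FD.imp ?_ (eqT (FT.var _) (FT.var _))
    refine FD.all1 (P := fun S h f => Fs (ml S) (h (Sum.inl 0)) f →
      ml S (h (Sum.inr 0)) f = ml S (h (Sum.inr 1)) f) ?_
    exact (fd_Fs (FT.var _) (FT.var _)).imp
      (eqT ((FT.var _).mul (FT.var _)) ((FT.var _).mul (FT.var _)))
  · refine FD.all1 (P := fun S h g => Gs (ml S) (h 0) g → g = h 0 ∨ ∃ w : Fin 2 → ℕ,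
      Fs (ml S) (h 0) (w 0) ∧ Fs (ml S) (h 0) (w 1) ∧ w 0 ≠ h 0 ∧ w 1 ≠ h 0 ∧
        ∀ x, Fs (ml S) (h 0) x → (ml S g x = h 1 ↔ x = w 0 ∨ x = w 1)) ?_
    refine (fd_Gs (FT.var _) (FT.var _)).imp <| (eqT (FT.var _) (FT.var _)).or ?_
    refine FD.ex (P := fun S h (w : Fin 2 → ℕ) =>
      Fs (ml S) (h (Sum.inl 0)) (w 0) ∧ Fs (ml S) (h (Sum.inl 0)) (w 1) ∧
        w 0 ≠ h (Sum.inl 0) ∧ w 1 ≠ h (Sum.inl 0) ∧ ∀ x, Fs (ml S) (h (Sum.inl 0)) x →
        (ml S (h (Sum.inr ())) x = h (Sum.inl 1) ↔ x = w 0 ∨ x = w 1)) ?_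
    refine (fd_Fs (FT.var _) (FT.var _)).and <| (fd_Fs (FT.var _) (FT.var _)).and <|
      (eqT (FT.var _) (FT.var _)).not.and <| (eqT (FT.var _) (FT.var _)).not.and ?_
    refine FD.all1 (P := fun S h x => Fs (ml S) (h (Sum.inl (Sum.inl 0))) x →
        (ml S (h (Sum.inl (Sum.inr ()))) x = h (Sum.inl (Sum.inl 1)) ↔
          x = h (Sum.inr 0) ∨ x = h (Sum.inr 1))) ?_
    exact (fd_Fs (FT.var _) (FT.var _)).imp <|
      (eqT ((FT.var _).mul (FT.var _)) (FT.var _)).iff <|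
      (eqT (FT.var _) (FT.var _)).or (eqT (FT.var _) (FT.var _))
  · refine FD.all1 (P := fun S h f => Fs (ml S) (h 0) f → f ≠ h 0 → ∃ g, Gs (ml S) (h 0) g ∧
      ∀ x, Fs (ml S) (h 0) x → (ml S g x = h 1 ↔ x = f)) ?_
    refine (fd_Fs (FT.var _) (FT.var _)).imp <| (eqT (FT.var _) (FT.var _)).not.imp ?_
    refine FD.ex1 (P := fun S h g => Gs (ml S) (h (Sum.inl 0)) g ∧
      ∀ x, Fs (ml S) (h (Sum.inl 0)) x → (ml S g x = h (Sum.inl 1) ↔ x = h (Sum.inr ()))) ?_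
    refine (fd_Gs (FT.var _) (FT.var _)).and ?_
    refine FD.all1 (P := fun S h x => Fs (ml S) (h (Sum.inl (Sum.inl 0))) x →
      (ml S (h (Sum.inr ())) x = h (Sum.inl (Sum.inl 1)) ↔ x = h (Sum.inl (Sum.inr ())))) ?_
    exact (fd_Fs (FT.var _) (FT.var _)).imp <|
      (eqT ((FT.var _).mul (FT.var _)) (FT.var _)).iff (eqT (FT.var _) (FT.var _))

theorem fd_Ps (g : ZMod p → α) : FD St0.W (fun S v => Ps p (ml S) (fun a => v (g a))) :=
  (fd_Ps0 (p := p)).sub g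

theorem fd_dm (i : α) : FD St0.W (fun S v => dm p (ml S) (v i)) := by
  have hp : NeZero p := ⟨(Fact.out : p.Prime).ne_zero⟩
  refine FD.ex (P := fun S v h => Ps p (ml S) h ∧ Fs (ml S) (h 0) (v i) ∧ v i ≠ h 0) ?_
  exact (fd_Ps _).and <| (fd_Fs (FT.var _) (FT.var _)).and (eqT (FT.var _) (FT.var _)).not

theorem fd_rl (i j : α) : FD St0.W (fun S v => rl p (ml S) (v i) (v j)) := by
  have hp : NeZero p := ⟨(Fact.out : p.Prime).ne_zero⟩
  refine FD.ex (P := fun S v h => Ps p (ml S) h ∧ Fs (ml S) (h 0) (v i) ∧ v i ≠ h 0 ∧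
    Fs (ml S) (h 0) (v j) ∧ v j ≠ h 0 ∧ v i ≠ v j ∧
    ∃ g, Gs (ml S) (h 0) g ∧ ml S g (v i) ≠ h 0 ∧ ml S g (v j) ≠ h 0) ?_
  refine (fd_Ps _).and <| (fd_Fs (FT.var _) (FT.var _)).and <|
    (eqT (FT.var _) (FT.var _)).not.and <| (fd_Fs (FT.var _) (FT.var _)).and <|
    (eqT (FT.var _) (FT.var _)).not.and <| (eqT (FT.var _) (FT.var _)).not.and ?_
  refine FD.ex1 (P := fun S v g => Gs (ml S) (v (Sum.inr 0)) g ∧
    ml S g (v (Sum.inl i)) ≠ v (Sum.inr 0) ∧ ml S g (v (Sum.inl j)) ≠ v (Sum.inr 0)) ?_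
  exact (fd_Gs (FT.var _) (FT.var _)).and <|
    (eqT ((FT.var _).mul (FT.var _)) (FT.var _)).not.and
      (eqT ((FT.var _).mul (FT.var _)) (FT.var _)).not

theorem ax_FA : Ax (fun S : LR.Structure ℕ => St0.W S ∧ FA p (ml S)) := by
  have hp : NeZero p := ⟨(Fact.out : p.Prime).ne_zero⟩
  have h1 := axf (P := fun S => ∀ w : Fin 3 → ℕ,
    ml S (ml S (w 0) (w 1)) (w 2) = ml S (w 0) (ml S (w 1) (w 2))) <|
    FD.all (P := fun S _ w => ml S (ml S (w 0) (w 1)) (w 2) = ml S (w 0) (ml S (w 1) (w 2))) <|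
    eqT (((FT.var _).mul (FT.var _)).mul (FT.var _)) ((FT.var _).mul ((FT.var _).mul (FT.var _)))
  have h2 := axf (P := fun S => ∃ h, Ps p (ml S) h) <|
    FD.ex (P := fun S _ h => Ps p (ml S) h) (fd_Ps _)
  have h3 := axf (P := fun S => ∀ h h', Ps p (ml S) h → Ps p (ml S) h' → h 0 = h' 0) <|
    FD.all (P := fun S _ h => ∀ h', Ps p (ml S) h → Ps p (ml S) h' → h 0 = h' 0) <|
    FD.all (P := fun S v h' => Ps p (ml S) (fun a => v (Sum.inr a)) → Ps p (ml S) h' →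
      v (Sum.inr 0) = h' 0) <|
    (fd_Ps _).imp <| (fd_Ps _).imp (eqT (FT.var _) (FT.var _))
  have h4 := Ax.all fun m : ℕ => axf (P := fun S => ∃ X : Fin m → ℕ, Function.Injective X ∧
    ∀ i, dm p (ml S) (X i)) <|
    FD.ex (P := fun S _ X => Function.Injective X ∧ ∀ i, dm p (ml S) (X i)) <|
    (FD.inj _).and (FD.fin fun i => fd_dm _)
  refine (h1.and (h2.and (h3.and h4))).congr fun S => ?_
  constructor
  · rintro ⟨⟨k0, k1⟩, ⟨-, k2⟩, ⟨-, k3⟩, k4⟩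
    exact ⟨k0, fun x y z => k1 ![x, y, z], k2, k3, fun m => (k4 m).2⟩
  · rintro ⟨k0, k1, k2, k3, k4⟩
    exact ⟨⟨k0, fun w => k1 _ _ _⟩, ⟨k0, k2⟩, ⟨k0, k3⟩, fun m => ⟨k0, k4 m⟩⟩

end Def

/-- vertices which are not adjacent -/
theorem na {M : LG.Structure ℕ} (h : StD.W 0 M) (d d' : ℕ) :
    ∃ v, v ≠ d ∧ v ≠ d' ∧ ¬ gd M d v := by
  classical
  obtain ⟨X, hX, hB⟩ := h.inf 5
  by_cases hd : Big (gd M) d
  · have h1 : ∃ i, X i ≠ d ∧ X i ≠ d' := by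
      by_contra hc
      push Not at hc
      have h2 : ∀ i, X i ∈ ({d, d'} : Finset ℕ) := fun i => by
        rw [Finset.mem_insert, Finset.mem_singleton]
        by_cases h3 : X i = d
        · exact Or.inl h3
        · exact Or.inr (hc i h3)
      have h4 := Finset.card_le_card_of_injOn X (s := Finset.univ) (fun i _ => h2 i)
        hX.injOn
      have h5 := h4.trans Finset.card_le_two
      rw [Finset.card_univ, Fintype.card_fin] at h5
      omega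
    obtain ⟨i, h1, h2⟩ := h1
    exact ⟨X i, h1, h2, h.sd.indep _ _ hd (hB i)⟩
  · by_contra hc
    push Not at hc
    refine hd ?_
    have h1 : ∃ Y : Fin 3 → ℕ, Function.Injective Y ∧ ∀ i, Y i ≠ d ∧ Y i ≠ d' := by
      let N := max d d' + 1
      refine ⟨fun i => N + i, fun i j hij => Fin.ext (by simpa using hij), fun i => ⟨?_, ?_⟩⟩
      · have := le_max_left d d'
        show max d d' + 1 + (i : ℕ) ≠ d
        omega
      · have := le_max_right d d'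
        show max d d' + 1 + (i : ℕ) ≠ d'
        omega
    obtain ⟨Y, hY, hY'⟩ := h1
    refine ⟨Y 0, Y 1, Y 2, fun he => ?_, fun he => ?_, fun he => ?_, hc _ (hY' 0).1 (hY' 0).2,
      hc _ (hY' 1).1 (hY' 1).2, hc _ (hY' 2).1 (hY' 2).2⟩
    · exact absurd (hY he) (by decide)
    · exact absurd (hY he) (by decide)
    · exact absurd (hY he) (by decide)

/-- Rees matrix semigroups -/
theorem leaf_C : Lf_C := by
  intro p hp
  have hp' : Fact p.Prime := ⟨hp⟩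
  refine engine (FA p) (dm p) (rl p) ax_FA (fd_dm _) (fd_rl _ _)
    (fun μ hμ => inf_of_card hμ.2.2.2) (fun μ μ' h h' τ hτ => up μ μ' h h' τ hτ)
    (fun M hM => ex (gd M) hM.sd.irrefl hM.sd.symm (na hM)) fun μ hμ => ?_
  obtain ⟨ha, ⟨h, hP⟩, hu, -⟩ := hμ
  obtain ⟨Φ, hΦ⟩ := coord ha hu hP
  exact ⟨_, _, _, Φ, hΦ⟩

end Pool.Agent.H353.FV
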