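import Pool.Agent.H4.FV.Stm

set_option autoImplicit false
set_option linter.unusedVariables false
set_option linter.unusedSectionVars false

/-! Vaught's conjecture and Rees matrix semigroups: coordinates. -/

namespace Pool.Agent.H353.FV

open Pool.Agent.N649.SG.Light

/-- the idempotents in the column of `e` -/
def Fs (μ : ℕ → ℕ → ℕ) (e x : ℕ) : Prop := μ x e = x ∧ μ e x = e

/-- the idempotents in the row of `e` -/
def Gs (μ : ℕ → ℕ → ℕ) (e x : ℕ) : Prop := μ e x = x ∧ μ x e = e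

/-- `h` lists the group of the idempotent `h 0`; coordinates -/
def Ps (p : ℕ) (μ : ℕ → ℕ → ℕ) (h : ZMod p → ℕ) : Prop :=
  (∀ a b, h a = h b → a = b) ∧
  (∀ a b, μ (h a) (h b) = h (a + b)) ∧
  (∀ w : Fin 4 → ℕ, Fs μ (h 0) (w 0) → Gs μ (h 0) (w 1) → Fs μ (h 0) (w 2) →
    Gs μ (h 0) (w 3) → ∀ a b, μ (μ (w 0) (h a)) (w 1) = μ (μ (w 2) (h b)) (w 3) →
      w 0 = w 2 ∧ a = b ∧ w 1 = w 3) ∧
  (∀ x : ℕ, ∃ w : Fin 2 → ℕ, Fs μ (h 0) (w 0) ∧ Gs μ (h 0) (w 1) ∧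
    ∃ a, μ (μ (w 0) (h a)) (w 1) = x) ∧
  (∀ w : Fin 2 → ℕ, Fs μ (h 0) (w 0) → Gs μ (h 0) (w 1) →
    μ (w 1) (w 0) = h 0 ∨ μ (w 1) (w 0) = h 1) ∧
  (∀ w : Fin 2 → ℕ, Gs μ (h 0) (w 0) → Gs μ (h 0) (w 1) →
    (∀ f, Fs μ (h 0) f → μ (w 0) f = μ (w 1) f) → w 0 = w 1) ∧
  (∀ g, Gs μ (h 0) g → g = h 0 ∨ ∃ w : Fin 2 → ℕ, Fs μ (h 0) (w 0) ∧ Fs μ (h 0) (w 1) ∧
    w 0 ≠ h 0 ∧ w 1 ≠ h 0 ∧ ∀ x, Fs μ (h 0) x → (μ g x = h 1 ↔ x = w 0 ∨ x = w 1)) ∧
  (∀ f, Fs μ (h 0) f → f ≠ h 0 → ∃ g, Gs μ (h 0) g ∧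
    ∀ x, Fs μ (h 0) x → (μ g x = h 1 ↔ x = f))

/-- the vertices -/
def dm (p : ℕ) (μ : ℕ → ℕ → ℕ) (x : ℕ) : Prop := ∃ h, Ps p μ h ∧ Fs μ (h 0) x ∧ x ≠ h 0

/-- the edges -/
def rl (p : ℕ) (μ : ℕ → ℕ → ℕ) (x y : ℕ) : Prop :=
  ∃ h, Ps p μ h ∧ Fs μ (h 0) x ∧ x ≠ h 0 ∧ Fs μ (h 0) y ∧ y ≠ h 0 ∧ x ≠ y ∧
    ∃ g, Gs μ (h 0) g ∧ μ g x ≠ h 0 ∧ μ g y ≠ h 0

/-- the coded operations -/
def FA (p : ℕ) (μ : ℕ → ℕ → ℕ) : Prop :=
  (∀ x y z, μ (μ x y) z = μ x (μ y z)) ∧ (∃ h, Ps p μ h) ∧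
  (∀ h h', Ps p μ h → Ps p μ h' → h 0 = h' 0) ∧
  ∀ m : ℕ, ∃ X : Fin m → ℕ, Function.Injective X ∧ ∀ i, dm p μ (X i)

/-- supports -/
def Cd {D : Type} (r : D → D → Prop) (S : Set D) : Prop :=
  S = ∅ ∨ ∃ d d', (d = d' ∨ r d d') ∧ S = {d, d'}

open Classical in
/-- the sandwich matrix -/
noncomputable def Pm (p : ℕ) {D : Type} (r : D → D → Prop) (S : {S : Set D // Cd r S}) :
    Option D → ZMod p
  | none => 0
  | some d => if d ∈ S.1 then 1 else 0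

theorem Pm_none {p : ℕ} {D : Type} {r : D → D → Prop} (S : {S : Set D // Cd r S}) :
    Pm p r S none = 0 := rfl

theorem Pm_some {p : ℕ} [Fact p.Prime] {D : Type} {r : D → D → Prop} (S : {S : Set D // Cd r S})
    (d : D) : (Pm p r S (some d) = 1 ↔ d ∈ S.1) ∧ (Pm p r S (some d) = 0 ↔ d ∉ S.1) := by
  classical
  unfold Pm
  by_cases hd : d ∈ S.1
  · simp [hd]
  · simp [hd]

theorem Pm_01 {p : ℕ} {D : Type} {r : D → D → Prop} (S : {S : Set D // Cd r S})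
    (o : Option D) : Pm p r S o = 0 ∨ Pm p r S o = 1 := by
  classical
  cases o with
  | none => exact Or.inl rfl
  | some d =>
    unfold Pm
    by_cases hd : d ∈ S.1
    · right
      simp [hd]
    · left
      simp [hd]

section Coord

variable {p : ℕ} [Fact p.Prime] {μ : ℕ → ℕ → ℕ} {h : ZMod p → ℕ}

theorem Ps.ne (hP : Ps p μ h) : h 0 ≠ h 1 := fun he => zero_ne_one (hP.1 _ _ he)

theorem Ps.e (hP : Ps p μ h) : Fs μ (h 0) (h 0) := by
  have := hP.2.1 0 0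
  rw [add_zero] at this
  exact ⟨this, this⟩

theorem Ps.e' (hP : Ps p μ h) : Gs μ (h 0) (h 0) := hP.e

/-- the vertices, in terms of `h` -/
theorem dm_iff (hu : ∀ h h', Ps p μ h → Ps p μ h' → h 0 = h' 0) (hP : Ps p μ h) (x : ℕ) :
    dm p μ x ↔ Fs μ (h 0) x ∧ x ≠ h 0 := by
  constructor
  · rintro ⟨h', h1, h2⟩
    rw [hu h h' hP h1]
    exact h2
  · exact fun h1 => ⟨h, hP, h1⟩

/-- the edges, in terms of `h` -/
theorem rl_iff (hu : ∀ h h', Ps p μ h → Ps p μ h' → h 0 = h' 0) (hP : Ps p μ h) (x y : ℕ) :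
    rl p μ x y ↔ Fs μ (h 0) x ∧ x ≠ h 0 ∧ Fs μ (h 0) y ∧ y ≠ h 0 ∧ x ≠ y ∧
      ∃ g, Gs μ (h 0) g ∧ μ g x = h 1 ∧ μ g y = h 1 := by
  constructor
  · rintro ⟨h', h1, h2⟩
    rw [← hu h h' hP h1] at h2
    obtain ⟨a1, a2, a3, a4, a5, g, a6, a7, a8⟩ := h2
    refine ⟨a1, a2, a3, a4, a5, g, a6, ?_, ?_⟩
    · exact (hP.2.2.2.2.1 ![x, g] a1 a6).resolve_left a7
    · exact (hP.2.2.2.2.1 ![y, g] a3 a6).resolve_left a8
  · rintro ⟨a1, a2, a3, a4, a5, g, a6, a7, a8⟩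
    refine ⟨h, hP, a1, a2, a3, a4, a5, g, a6, ?_, ?_⟩
    · rw [a7]
      exact hP.ne.symm
    · rw [a8]
      exact hP.ne.symm

/-- the rows -/
theorem exg (hu : ∀ h h', Ps p μ h → Ps p μ h' → h 0 = h' 0) (hP : Ps p μ h)
    (S : Set {x // dm p μ x}) (hS : Cd (fun x y : {x // dm p μ x} => rl p μ x y) S) :
    ∃ g, Gs μ (h 0) g ∧ ∀ d : {x // dm p μ x}, μ g d = h 1 ↔ d ∈ S := by
  rcases hS with rfl | ⟨d, d', hd, rfl⟩
  · refine ⟨h 0, hP.e', fun d => ?_⟩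
    have h1 := ((dm_iff hu hP d).1 d.2).1.2
    rw [h1]
    simp only [Set.mem_empty_iff_false, iff_false]
    exact hP.ne
  · rcases hd with rfl | hd
    · have h1 := (dm_iff hu hP d).1 d.2
      obtain ⟨g, h2, h3⟩ := hP.2.2.2.2.2.2.2 d h1.1 h1.2
      refine ⟨g, h2, fun x => ?_⟩
      rw [h3 x ((dm_iff hu hP x).1 x.2).1]
      simp only [Set.mem_insert_iff, Set.mem_singleton_iff, or_self]
      exact Subtype.ext_iff.symm
    · obtain ⟨a1, a2, a3, a4, a5, g, a6, a7, a8⟩ := (rl_iff hu hP _ _).1 hd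
      refine ⟨g, a6, fun x => ?_⟩
      rcases hP.2.2.2.2.2.2.1 g a6 with h1 | ⟨w, b1, b2, b3, b4, b5⟩
      · exfalso
        rw [h1, a1.2] at a7
        exact hP.ne a7
      · rw [b5 x ((dm_iff hu hP x).1 x.2).1]
        have c1 := (b5 _ a1).1 a7
        have c2 := (b5 _ a3).1 a8
        simp only [Set.mem_insert_iff, Set.mem_singleton_iff, Subtype.ext_iff]
        rcases c1 with c1 | c1 <;> rcases c2 with c2 | c2
        · exact absurd (c1.trans c2.symm) a5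
        · rw [← c1, ← c2]
        · rw [← c1, ← c2]
          exact or_comm
        · exact absurd (c1.trans c2.symm) a5

/-- coordinates -/
theorem coord (ha : ∀ x y z, μ (μ x y) z = μ x (μ y z))
    (hu : ∀ h h', Ps p μ h → Ps p μ h' → h 0 = h' 0) (hP : Ps p μ h) :
    ∃ Φ : ℕ ≃ Option {x // dm p μ x} × ZMod p ×
      {S : Set {x // dm p μ x} // Cd (fun x y : {x // dm p μ x} => rl p μ x y) S},
      ∀ x y, Φ (μ x y) = rm p (Pm p _) (Φ x) (Φ y) := by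
  classical
  have hd := fun x => dm_iff hu hP x
  have ex := fun S : {S : Set {x // dm p μ x} //
    Cd (fun x y : {x // dm p μ x} => rl p μ x y) S} => exg hu hP S.1 S.2
  choose gg g1 g2 using ex
  let fo : Option {x // dm p μ x} → ℕ := fun o => o.elim (h 0) (fun d => d.1)
  have f1 : ∀ o, Fs μ (h 0) (fo o) := by
    intro o
    cases o with
    | none => exact hP.e
    | some d => exact ((hd d).1 d.2).1
  have f2 : ∀ o o', fo o = fo o' → o = o' := by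
    intro o o' he
    cases o with
    | none =>
      cases o' with
      | none => rfl
      | some d => exact absurd he.symm ((hd d).1 d.2).2
    | some d =>
      cases o' with
      | none => exact absurd he ((hd d).1 d.2).2
      | some d' => exact congrArg some (Subtype.ext he)
  have f3 : ∀ x, Fs μ (h 0) x → ∃ o, fo o = x := by
    intro x hx
    by_cases he : x = h 0
    · exact ⟨none, he.symm⟩
    · exact ⟨some ⟨x, (hd x).2 ⟨hx, he⟩⟩, rfl⟩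
  have fg : ∀ S o, μ (gg S) (fo o) = h (Pm p _ S o) := by
    intro S o
    cases o with
    | none =>
      rw [Pm_none]
      exact (g1 S).2
    | some d =>
      have h1 := hP.2.2.2.2.1 ![d, gg S] ((hd d).1 d.2).1 (g1 S)
      have h2 := g2 S d
      show μ (gg S) d = _
      by_cases hS : d ∈ S.1
      · rw [(Pm_some S d).1.2 hS]
        exact h2.2 hS
      · rw [(Pm_some S d).2.2 hS]
        exact h1.resolve_right fun h3 => hS (h2.1 h3)
  have gs : ∀ g, Gs μ (h 0) g → ∃ S, gg S = g := by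
    intro g hg
    have hS : Cd (fun x y : {x // dm p μ x} => rl p μ x y) {d | μ g d = h 1} := by
      rcases hP.2.2.2.2.2.2.1 g hg with h1 | ⟨w, b1, b2, b3, b4, b5⟩
      · left
        refine Set.eq_empty_of_forall_notMem fun d hd' => ?_
        have h2 : μ g d = h 1 := hd'
        rw [h1, ((hd d).1 d.2).1.2] at h2
        exact hP.ne h2
      · right
        refine ⟨⟨w 0, (hd _).2 ⟨b1, b3⟩⟩, ⟨w 1, (hd _).2 ⟨b2, b4⟩⟩, ?_, ?_⟩
        · by_cases he : w 0 = w 1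
          · exact Or.inl (Subtype.ext he)
          · exact Or.inr ((rl_iff hu hP _ _).2 ⟨b1, b3, b2, b4, he, g, hg,
              (b5 _ b1).2 (Or.inl rfl), (b5 _ b2).2 (Or.inr rfl)⟩)
        · ext d
          show μ g d = h 1 ↔ _
          rw [b5 d ((hd d).1 d.2).1]
          simp only [Set.mem_insert_iff, Set.mem_singleton_iff, Subtype.ext_iff]
    refine ⟨⟨_, hS⟩, ?_⟩
    refine hP.2.2.2.2.2.1 ![gg ⟨_, hS⟩, g] (g1 _) hg fun f hf => ?_
    obtain ⟨o, rfl⟩ := f3 f hf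
    show μ (gg ⟨_, hS⟩) (fo o) = μ g (fo o)
    cases o with
    | none => exact (g1 _).2.trans hg.2.symm
    | some d =>
      have k1 := hP.2.2.2.2.1 ![d, gg ⟨_, hS⟩] ((hd d).1 d.2).1 (g1 _)
      have k2 := hP.2.2.2.2.1 ![d, g] ((hd d).1 d.2).1 hg
      have k3 : μ (gg ⟨_, hS⟩) d = h 1 ↔ μ g d = h 1 := g2 ⟨_, hS⟩ d
      show μ (gg ⟨_, hS⟩) d = μ g d
      rcases k1 with k1 | k1
      · rcases k2 with k2 | k2
        · exact k1.trans k2.symm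
        · exact absurd (k1.symm.trans (k3.2 k2)) hP.ne
      · exact k1.trans (k3.1 k1).symm
  have gi : ∀ S S', gg S = gg S' → S = S' := by
    intro S S' he
    refine Subtype.ext (Set.ext fun d => ?_)
    rw [← g2 S d, ← g2 S' d, he]
  let Ψ : Option {x // dm p μ x} × ZMod p ×
      {S : Set {x // dm p μ x} // Cd (fun x y : {x // dm p μ x} => rl p μ x y) S} → ℕ :=
    fun q => μ (μ (fo q.1) (h q.2.1)) (gg q.2.2)
  have hΨ : Function.Bijective Ψ := by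
    constructor
    · rintro ⟨o, a, S⟩ ⟨o', a', S'⟩ he
      obtain ⟨h1, h2, h3⟩ := hP.2.2.1 ![fo o, gg S, fo o', gg S'] (f1 o) (g1 S) (f1 o') (g1 S')
        a a' he
      rw [f2 _ _ h1, h2, gi _ _ h3]
    · intro x
      obtain ⟨w, h1, h2, a, h3⟩ := hP.2.2.2.1 x
      obtain ⟨o, ho⟩ := f3 _ h1
      obtain ⟨S, hS⟩ := gs _ h2
      refine ⟨(o, a, S), ?_⟩
      show μ (μ (fo o) (h a)) (gg S) = x
      rw [ho, hS, h3]
  have hm : ∀ q q', Ψ (rm p (Pm p _) q q') = μ (Ψ q) (Ψ q') := by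
    rintro ⟨o, a, S⟩ ⟨o', a', S'⟩
    show μ (μ (fo o) (h (a + Pm p _ S o' + a'))) (gg S') =
      μ (μ (μ (fo o) (h a)) (gg S)) (μ (μ (fo o') (h a')) (gg S'))
    rw [← hP.2.1, ← hP.2.1, ← fg S o']
    simp only [ha]
  refine ⟨(Equiv.ofBijective Ψ hΨ).symm, fun x y => ?_⟩
  rw [Equiv.symm_apply_eq]
  show _ = Ψ _
  rw [hm]
  have e1 : ∀ x, Ψ ((Equiv.ofBijective Ψ hΨ).symm x) = x :=
    fun x => (Equiv.ofBijective Ψ hΨ).apply_symm_apply x
  rw [e1, e1]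

end Coord

/-- transport of supports -/
theorem Cd_image {D D' : Type} {r : D → D → Prop} {r' : D' → D' → Prop} (τ : D ≃ D')
    (hτ : ∀ x y, r' (τ x) (τ y) ↔ r x y) {S : Set D} (hS : Cd r S) : Cd r' (τ '' S) := by
  rcases hS with rfl | ⟨d, d', hd, rfl⟩
  · left
    exact Set.image_empty _
  · right
    refine ⟨τ d, τ d', ?_, Set.image_pair _ _ _⟩
    rcases hd with rfl | hd
    · exact Or.inl rfl
    · exact Or.inr ((hτ _ _).2 hd)

/-- isomorphic graphs give isomorphic operations -/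
theorem up {p : ℕ} [Fact p.Prime] (μ μ' : ℕ → ℕ → ℕ) (hμ : FA p μ) (hμ' : FA p μ')
    (τ : {x // dm p μ x} ≃ {x // dm p μ' x})
    (hτ : ∀ x y : {x // dm p μ x}, rl p μ' (τ x) (τ y) ↔ rl p μ x y) :
    ∃ σ : Equiv.Perm ℕ, ∀ a b, σ (μ a b) = μ' (σ a) (σ b) := by
  classical
  obtain ⟨ha, ⟨h, hP⟩, hu, -⟩ := hμ
  obtain ⟨ha', ⟨h', hP'⟩, hu', -⟩ := hμ'
  obtain ⟨Φ, hΦ⟩ := coord ha hu hP
  obtain ⟨Φ', hΦ'⟩ := coord ha' hu' hP'
  have hτ' : ∀ x y : {x // dm p μ' x}, rl p μ (τ.symm x) (τ.symm y) ↔ rl p μ' x y := by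
    intro x y
    have := hτ (τ.symm x) (τ.symm y)
    rw [τ.apply_symm_apply, τ.apply_symm_apply] at this
    exact this.symm
  let κ : {S : Set {x // dm p μ x} // Cd (fun x y : {x // dm p μ x} => rl p μ x y) S} ≃
      {S : Set {x // dm p μ' x} // Cd (fun x y : {x // dm p μ' x} => rl p μ' x y) S} :=
    { toFun := fun S => ⟨τ '' S.1, Cd_image τ hτ S.2⟩
      invFun := fun S => ⟨τ.symm '' S.1, Cd_image τ.symm hτ' S.2⟩
      left_inv := fun S => Subtype.ext (τ.symm_image_image S.1)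
      right_inv := fun S => Subtype.ext (τ.image_symm_image S.1) }
  have hκ : ∀ S o, Pm p (fun x y : {x // dm p μ' x} => rl p μ' x y) (κ S) (Option.map τ o) =
      Pm p (fun x y : {x // dm p μ x} => rl p μ x y) S o := by
    intro S o
    cases o with
    | none => rfl
    | some d =>
      have h1 : τ d ∈ (κ S).1 ↔ d ∈ S.1 := by
        show τ d ∈ τ '' S.1 ↔ d ∈ S.1
        exact τ.injective.mem_set_image
      have h2 := Pm_some (p := p) (κ S) (τ d)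
      have h3 := Pm_some (p := p) S d
      show Pm p _ (κ S) (some (τ d)) = _
      by_cases hd : d ∈ S.1
      · rw [h2.1.2 (h1.2 hd), h3.1.2 hd]
      · rw [h2.2.2 fun hc => hd (h1.1 hc), h3.2.2 hd]
  let T := (Equiv.optionCongr τ).prodCongr ((Equiv.refl (ZMod p)).prodCongr κ)
  have hT : ∀ u v, T (rm p (Pm p _) u v) = rm p (Pm p _) (T u) (T v) := by
    rintro ⟨o, a, S⟩ ⟨o', a', S'⟩
    show (Option.map τ o, a + Pm p _ S o' + a', κ S') =
      (Option.map τ o, a + Pm p _ (κ S) (Option.map τ o') + a', κ S')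
    rw [hκ]
  refine ⟨(Φ.trans T).trans Φ'.symm, fun a b => ?_⟩
  show Φ'.symm (T (Φ (μ a b))) = μ' (Φ'.symm (T (Φ a))) (Φ'.symm (T (Φ b)))
  rw [Equiv.symm_apply_eq, hΦ', Φ'.apply_symm_apply, Φ'.apply_symm_apply, hΦ, hT]

end Pool.Agent.H353.FV
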