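import Pool.Agent.H353.FV.CA

set_option autoImplicit false
set_option linter.unusedVariables false
set_option linter.unusedSectionVars false

/-! Vaught's conjecture and Rees matrix semigroups: the operation of a graph. -/

namespace Pool.Agent.H353.FV

open Pool.Agent.N649.SG.Light

theorem Cd.fin {D : Type} {r : D → D → Prop} {S : Set D} (h : Cd r S) : S.Finite := by
  rcases h with rfl | ⟨d, d', -, rfl⟩
  · exact Set.finite_empty
  · exact Set.toFinite _

section Conv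

variable {p : ℕ} [Fact p.Prime] {V : Type} {r : V → V → Prop} {μ : ℕ → ℕ → ℕ}
  {T : Option V → ZMod p → {S : Set V // Cd r S} → ℕ}

/-- coordinates for the operation of a graph -/
structure Co (T : Option V → ZMod p → {S : Set V // Cd r S} → ℕ) (μ : ℕ → ℕ → ℕ) : Prop where
  inj : ∀ o a S o' a' S', T o a S = T o' a' S' → o = o' ∧ a = a' ∧ S = S'
  sur : ∀ x, ∃ o a S, T o a S = x
  mul : ∀ o a S o' a' S', μ (T o a S) (T o' a' S') = T o (a + Pm p r S o' + a') S'

/-- the empty support -/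
def k0 : {S : Set V // Cd r S} := ⟨∅, Or.inl rfl⟩

theorem Pm_k0 (o : Option V) : Pm p r k0 o = 0 := by
  cases o with
  | none => rfl
  | some d => exact (Pm_some k0 d).2.2 (Set.notMem_empty d)

theorem Co.fs (hT : Co T μ) (o₁ : Option V) (S₁ : {S : Set V // Cd r S}) (x : ℕ) :
    Fs μ (T o₁ (-Pm p r S₁ o₁) S₁) x ↔ ∃ o, x = T o (-Pm p r S₁ o) S₁ := by
  constructor
  · obtain ⟨o, a, S, rfl⟩ := hT.sur x
    rintro ⟨h1, h2⟩
    rw [hT.mul] at h1 h2
    obtain ⟨-, -, rfl⟩ := hT.inj _ _ _ _ _ _ h1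
    obtain ⟨-, h4, -⟩ := hT.inj _ _ _ _ _ _ h2
    have h5 : a = -Pm p r S₁ o := by linear_combination h4
    exact ⟨o, by rw [h5]⟩
  · rintro ⟨o, rfl⟩
    constructor
    · rw [hT.mul]
      rw [show -Pm p r S₁ o + Pm p r S₁ o₁ + -Pm p r S₁ o₁ = -Pm p r S₁ o by ring]
    · rw [hT.mul]
      rw [show -Pm p r S₁ o₁ + Pm p r S₁ o + -Pm p r S₁ o = -Pm p r S₁ o₁ by ring]

theorem Co.gs (hT : Co T μ) (o₁ : Option V) (S₁ : {S : Set V // Cd r S}) (x : ℕ) :
    Gs μ (T o₁ (-Pm p r S₁ o₁) S₁) x ↔ ∃ S, x = T o₁ (-Pm p r S o₁) S := by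
  constructor
  · obtain ⟨o, a, S, rfl⟩ := hT.sur x
    rintro ⟨h1, h2⟩
    rw [hT.mul] at h1 h2
    obtain ⟨rfl, -, -⟩ := hT.inj _ _ _ _ _ _ h1
    obtain ⟨-, h4, -⟩ := hT.inj _ _ _ _ _ _ h2
    have h5 : a = -Pm p r S o₁ := by linear_combination h4
    exact ⟨S, by rw [h5]⟩
  · rintro ⟨S, rfl⟩
    constructor
    · rw [hT.mul]
      rw [show -Pm p r S₁ o₁ + Pm p r S₁ o₁ + -Pm p r S o₁ = -Pm p r S o₁ by ring]
    · rw [hT.mul]
      rw [show -Pm p r S o₁ + Pm p r S o₁ + -Pm p r S₁ o₁ = -Pm p r S₁ o₁ by ring]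

theorem Co.fs0 (hT : Co T μ) (x : ℕ) : Fs μ (T none 0 k0) x ↔ ∃ o, x = T o 0 k0 := by
  have h := hT.fs none k0 x
  simp only [Pm_k0, neg_zero] at h
  exact h

theorem Co.gs0 (hT : Co T μ) (x : ℕ) : Gs μ (T none 0 k0) x ↔ ∃ S, x = T none 0 S := by
  have h := hT.gs none k0 x
  simp only [Pm_none, neg_zero] at h
  exact h

theorem Co.gf (hT : Co T μ) (S : {S : Set V // Cd r S}) (o : Option V) :
    μ (T none 0 S) (T o 0 k0) = T none (Pm p r S o) k0 := by
  rw [hT.mul, zero_add, add_zero]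

/-- pairs and singletons -/
def kk (d d' : V) (h : d = d' ∨ r d d') : {S : Set V // Cd r S} :=
  ⟨{d, d'}, Or.inr ⟨d, d', h, rfl⟩⟩

theorem Co.ps (hT : Co T μ) : Ps p μ fun a => T none a k0 := by
  have hne : (1 : ZMod p) ≠ 0 := one_ne_zero
  have hv : ∀ S o, μ (T none 0 S) (T o 0 k0) = T none 1 k0 ↔ Pm p r S o = 1 := by
    intro S o
    rw [hT.gf]
    exact ⟨fun h => (hT.inj _ _ _ _ _ _ h).2.1, fun h => by rw [h]⟩
  have hx : ∀ S : {S : Set V // Cd r S}, ∀ d d' : V, S.1 = {d, d'} →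
      ∀ x, Fs μ (T none 0 k0) x →
        (μ (T none 0 S) x = T none 1 k0 ↔ x = T (some d) 0 k0 ∨ x = T (some d') 0 k0) := by
    intro S d d' hS x hx
    obtain ⟨o, rfl⟩ := (hT.fs0 x).1 hx
    rw [hv]
    cases o with
    | none =>
      constructor
      · intro h
        rw [Pm_none] at h
        exact absurd h.symm hne
      · rintro (h | h)
        · exact absurd (hT.inj _ _ _ _ _ _ h).1 (by simp)
        · exact absurd (hT.inj _ _ _ _ _ _ h).1 (by simp)
    | some v =>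
      rw [(Pm_some S v).1, hS]
      constructor
      · rintro (rfl | h)
        · exact Or.inl rfl
        · rw [Set.mem_singleton_iff.1 h]
          exact Or.inr rfl
      · rintro (h | h)
        · exact Or.inl (Option.some.inj (hT.inj _ _ _ _ _ _ h).1)
        · exact Or.inr (Option.some.inj (hT.inj _ _ _ _ _ _ h).1)
  refine ⟨?_, ?_, ?_, ?_, ?_, ?_, ?_, ?_⟩
  · intro a b h
    exact (hT.inj _ _ _ _ _ _ h).2.1
  · intro a b
    show μ (T none a k0) (T none b k0) = T none (a + b) k0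
    rw [hT.mul, Pm_none, add_zero]
  · intro w h1 h2 h3 h4 a b h5
    obtain ⟨o, ho⟩ := (hT.fs0 _).1 h1
    obtain ⟨S, hS⟩ := (hT.gs0 _).1 h2
    obtain ⟨o', ho'⟩ := (hT.fs0 _).1 h3
    obtain ⟨S', hS'⟩ := (hT.gs0 _).1 h4
    rw [ho, hS, ho', hS'] at h5 ⊢
    rw [hT.mul, hT.mul, hT.mul, hT.mul] at h5
    obtain ⟨rfl, h6, rfl⟩ := hT.inj _ _ _ _ _ _ h5
    simp only [Pm_k0, zero_add, add_zero] at h6
    exact ⟨rfl, h6, rfl⟩
  · intro x
    obtain ⟨o, a, S, rfl⟩ := hT.sur x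
    refine ⟨![T o 0 k0, T none 0 S], (hT.fs0 _).2 ⟨o, rfl⟩, (hT.gs0 _).2 ⟨S, rfl⟩, a, ?_⟩
    show μ (μ (T o 0 k0) (T none a k0)) (T none 0 S) = _
    rw [hT.mul, hT.mul]
    simp only [Pm_k0, zero_add, add_zero]
  · intro w h1 h2
    obtain ⟨o, ho⟩ := (hT.fs0 _).1 h1
    obtain ⟨S, hS⟩ := (hT.gs0 _).1 h2
    rw [ho, hS, hT.gf]
    rcases Pm_01 (p := p) S o with h | h
    · left
      rw [h]
    · right
      rw [h]
  · intro w h1 h2 h3
    obtain ⟨S, hS⟩ := (hT.gs0 _).1 h1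
    obtain ⟨S', hS'⟩ := (hT.gs0 _).1 h2
    rw [hS, hS'] at h3 ⊢
    have : S = S' := by
      refine Subtype.ext (Set.ext fun d => ?_)
      have h4 := h3 (T (some d) 0 k0) ((hT.fs0 _).2 ⟨_, rfl⟩)
      rw [hT.gf, hT.gf] at h4
      rw [← (Pm_some (p := p) S d).1, ← (Pm_some (p := p) S' d).1,
        (hT.inj _ _ _ _ _ _ h4).2.1]
    rw [this]
  · intro g hg
    obtain ⟨S, rfl⟩ := (hT.gs0 _).1 hg
    rcases S.2 with h | ⟨d, d', hd, h⟩
    · left
      have : S = k0 := Subtype.ext h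
      rw [this]
    · right
      refine ⟨![T (some d) 0 k0, T (some d') 0 k0], (hT.fs0 _).2 ⟨_, rfl⟩, (hT.fs0 _).2 ⟨_, rfl⟩,
        fun h => ?_, fun h => ?_, hx S d d' h⟩
      · exact absurd (hT.inj _ _ _ _ _ _ h).1 (by simp)
      · exact absurd (hT.inj _ _ _ _ _ _ h).1 (by simp)
  · intro f hf hne'
    obtain ⟨o, rfl⟩ := (hT.fs0 _).1 hf
    cases o with
    | none => exact absurd rfl hne'
    | some d =>
      refine ⟨T none 0 (kk d d (Or.inl rfl)), (hT.gs0 _).2 ⟨_, rfl⟩, fun x hx' => ?_⟩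
      rw [hx (kk d d (Or.inl rfl)) d d rfl x hx']
      exact or_self_iff

/-- the base point is unique -/
theorem Co.uq (hT : Co T μ) (hinf : Infinite V) (hs : ∀ u v, r u v → r v u)
    (na : ∀ d d', ∃ v, v ≠ d ∧ v ≠ d' ∧ ¬ r d v) (h : ZMod p → ℕ) (hP : Ps p μ h) :
    h 0 = T none 0 k0 := by
  classical
  have hne : (1 : ZMod p) ≠ 0 := one_ne_zero
  obtain ⟨o₁, a₁, S₁, he⟩ := hT.sur (h 0)
  have hid := hP.2.1 0 0
  rw [add_zero, ← he, hT.mul] at hid
  have ha₁ : a₁ = -Pm p r S₁ o₁ := by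
    have := (hT.inj _ _ _ _ _ _ hid).2.1
    linear_combination this
  subst ha₁
  have hfs := hT.fs o₁ S₁
  have hgs := hT.gs o₁ S₁
  rw [he] at hfs hgs
  have hgf : ∀ S o, μ (T o₁ (-Pm p r S o₁) S) (T o (-Pm p r S₁ o) S₁) = h 0 ↔
      Pm p r S o - Pm p r S₁ o = Pm p r S o₁ - Pm p r S₁ o₁ := by
    intro S o
    rw [hT.mul, ← he]
    constructor
    · intro h1
      have := (hT.inj _ _ _ _ _ _ h1).2.1
      linear_combination this
    · intro h1
      rw [show -Pm p r S o₁ + Pm p r S o + -Pm p r S₁ o = -Pm p r S₁ o₁ by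
        linear_combination h1]
  -- almost all products are trivial
  have hfin : ∀ S, {o | Pm p r S o - Pm p r S₁ o ≠ Pm p r S o₁ - Pm p r S₁ o₁}.Finite := by
    intro S
    have hg := (hgs (T o₁ (-Pm p r S o₁) S)).2 ⟨S, rfl⟩
    rcases hP.2.2.2.2.2.2.1 _ hg with h1 | ⟨w, b1, b2, b3, b4, b5⟩
    · refine Set.Finite.subset Set.finite_empty fun o ho => ?_
      refine (ho ((hgf S o).1 ?_)).elim
      have h2 := (hfs (T o (-Pm p r S₁ o) S₁)).2 ⟨o, rfl⟩
      rw [h1]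
      exact h2.2
    · obtain ⟨o', ho'⟩ := (hfs _).1 b1
      obtain ⟨o'', ho''⟩ := (hfs _).1 b2
      refine Set.Finite.subset (Set.toFinite {o', o''}) fun o ho => ?_
      have h2 := (hfs (T o (-Pm p r S₁ o) S₁)).2 ⟨o, rfl⟩
      have h3 := (hP.2.2.2.2.1 ![_, _] h2 hg).resolve_left fun h4 => ho ((hgf S o).1 h4)
      rcases (b5 _ h2).1 h3 with h4 | h4
      · left
        rw [ho'] at h4
        exact (hT.inj _ _ _ _ _ _ h4).1
      · right
        rw [ho''] at h4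
        exact (hT.inj _ _ _ _ _ _ h4).1
  have hz : ∀ S, Pm p r S o₁ = Pm p r S₁ o₁ := by
    intro S
    have h1 : ((some ⁻¹' {o | Pm p r S o - Pm p r S₁ o ≠ Pm p r S o₁ - Pm p r S₁ o₁}) ∪
        (S.1 ∪ S₁.1)).Finite :=
      ((hfin S).preimage (Option.some_injective V).injOn).union (S.2.fin.union S₁.2.fin)
    obtain ⟨v, hv⟩ := h1.infinite_compl.nonempty
    have h2 : ¬ (Pm p r S (some v) - Pm p r S₁ (some v) ≠ Pm p r S o₁ - Pm p r S₁ o₁) :=
      fun hc => hv (Or.inl hc)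
    have h3 : v ∉ S.1 := fun hc => hv (Or.inr (Or.inl hc))
    have h4 : v ∉ S₁.1 := fun hc => hv (Or.inr (Or.inr hc))
    rw [not_not, (Pm_some S v).2.2 h3, (Pm_some S₁ v).2.2 h4] at h2
    linear_combination -h2
  have ho : o₁ = none := by
    cases o₁ with
    | none => rfl
    | some d =>
      exfalso
      have h1 := hz k0
      have h2 := hz (kk d d (Or.inl rfl))
      rw [← h1, Pm_k0] at h2
      exact (Pm_some (p := p) (kk (r := r) d d (Or.inl rfl)) d).2.1 h2 (Or.inl rfl)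
  subst ho
  have hS : S₁ = k0 := by
    rcases S₁.2 with h1 | ⟨d, d', hd, h1⟩
    · exact Subtype.ext h1
    · exfalso
      obtain ⟨v, v1, v2, v3⟩ := na d d'
      have h2 := (hfs (T (some v) (-Pm p r S₁ (some v)) S₁)).2 ⟨_, rfl⟩
      have h3 : T (some v) (-Pm p r S₁ (some v)) S₁ ≠ h 0 := by
        rw [← he]
        intro hc
        exact absurd (hT.inj _ _ _ _ _ _ hc).1 (by simp)
      obtain ⟨g, h4, h5⟩ := hP.2.2.2.2.2.2.2 _ h2 h3
      obtain ⟨S, rfl⟩ := (hgs _).1 h4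
      have key : ∀ u, Pm p r S (some u) ≠ Pm p r S₁ (some u) ↔ u = v := by
        intro u
        have h6 := (hfs (T (some u) (-Pm p r S₁ (some u)) S₁)).2 ⟨_, rfl⟩
        have h7 := h5 _ h6
        have h8 := hP.2.2.2.2.1 ![_, _] h6 h4
        have h9 := hgf S (some u)
        rw [Pm_none, Pm_none, sub_zero, sub_eq_zero] at h9
        constructor
        · intro h10
          have h11 := h8.resolve_left fun hc => h10 (h9.1 hc)
          exact Option.some.inj (hT.inj _ _ _ _ _ _ (h7.1 h11)).1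
        · rintro rfl hc
          exact hP.ne ((h9.2 hc).symm.trans (h7.2 rfl))
      have hdS₁ : d ∈ S₁.1 := by
        rw [h1]
        exact Or.inl rfl
      have hvS₁ : v ∉ S₁.1 := by
        rw [h1]
        rintro (hc | hc)
        · exact v1 hc
        · exact v2 hc
      have hdS : d ∈ S.1 := by
        by_contra hc
        refine (v1 ((key d).1 fun hcc => ?_).symm)
        rw [(Pm_some S d).2.2 hc, (Pm_some S₁ d).1.2 hdS₁] at hcc
        exact hne hcc.symm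
      have hvS : v ∈ S.1 := by
        by_contra hc
        refine (key v).2 rfl ?_
        rw [(Pm_some S v).2.2 hc, (Pm_some S₁ v).2.2 hvS₁]
      rcases S.2 with h6 | ⟨x, y, hxy, h6⟩
      · rw [h6] at hdS
        exact hdS
      · rw [h6] at hdS hvS
        have h7 : r x y := by
          rcases hxy with rfl | hxy
          · exfalso
            rcases hdS with hdS | hdS <;> rcases hvS with hvS | hvS <;>
              exact v1 (hvS.trans hdS.symm)
          · exact hxy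
        rcases hdS with hdS | hdS
        · rcases hvS with hvS | hvS
          · exact v1 (hvS.trans hdS.symm)
          · rw [Set.mem_singleton_iff] at hvS
            rw [← hdS, ← hvS] at h7
            exact v3 h7
        · rw [Set.mem_singleton_iff] at hdS
          rcases hvS with hvS | hvS
          · rw [← hdS, ← hvS] at h7
            exact v3 (hs _ _ h7)
          · rw [Set.mem_singleton_iff] at hvS
            exact v1 (hvS.trans hdS.symm)
  rw [← he, hS, Pm_none, neg_zero]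

theorem Co.uniq (hT : Co T μ) (hinf : Infinite V) (hs : ∀ u v, r u v → r v u)
    (na : ∀ d d', ∃ v, v ≠ d ∧ v ≠ d' ∧ ¬ r d v) (h h' : ZMod p → ℕ) (hP : Ps p μ h)
    (hP' : Ps p μ h') : h 0 = h' 0 :=
  (hT.uq hinf hs na h hP).trans (hT.uq hinf hs na h' hP').symm

theorem Co.dm (hT : Co T μ) (hinf : Infinite V) (hs : ∀ u v, r u v → r v u)
    (na : ∀ d d', ∃ v, v ≠ d ∧ v ≠ d' ∧ ¬ r d v) (x : ℕ) :
    dm p μ x ↔ ∃ v, x = T (some v) 0 k0 := by
  rw [dm_iff (hT.uniq hinf hs na) hT.ps, hT.fs0]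
  constructor
  · rintro ⟨⟨o, rfl⟩, h1⟩
    cases o with
    | none => exact absurd rfl h1
    | some v => exact ⟨v, rfl⟩
  · rintro ⟨v, rfl⟩
    refine ⟨⟨_, rfl⟩, fun hc => ?_⟩
    exact absurd (hT.inj _ _ _ _ _ _ hc).1 (by simp)

theorem Co.rl (hT : Co T μ) (hinf : Infinite V) (hi : ∀ u, ¬ r u u) (hs : ∀ u v, r u v → r v u)
    (na : ∀ d d', ∃ v, v ≠ d ∧ v ≠ d' ∧ ¬ r d v) (u v : V) :
    rl p μ (T (some u) 0 k0) (T (some v) 0 k0) ↔ r u v := by
  rw [rl_iff (hT.uniq hinf hs na) hT.ps]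
  constructor
  · rintro ⟨-, -, -, -, h1, g, h2, h3, h4⟩
    obtain ⟨S, rfl⟩ := (hT.gs0 _).1 h2
    have h5 : u ∈ S.1 := by
      rw [hT.gf] at h3
      exact (Pm_some S u).1.1 (hT.inj _ _ _ _ _ _ h3).2.1
    have h6 : v ∈ S.1 := by
      rw [hT.gf] at h4
      exact (Pm_some S v).1.1 (hT.inj _ _ _ _ _ _ h4).2.1
    have huv : u ≠ v := by
      rintro rfl
      exact h1 rfl
    rcases S.2 with h7 | ⟨x, y, hxy, h7⟩
    · rw [h7] at h5
      exact h5.elim
    · rw [h7] at h5 h6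
      simp only [Set.mem_insert_iff, Set.mem_singleton_iff] at h5 h6
      rcases hxy with rfl | hxy
      · rcases h5 with h5 | h5 <;> rcases h6 with h6 | h6 <;>
          exact absurd (h5.trans h6.symm) huv
      · rcases h5 with h5 | h5 <;> rcases h6 with h6 | h6
        · exact absurd (h5.trans h6.symm) huv
        · rw [h5, h6]
          exact hxy
        · rw [h5, h6]
          exact hs _ _ hxy
        · exact absurd (h5.trans h6.symm) huv
  · intro h1
    refine ⟨(hT.fs0 _).2 ⟨_, rfl⟩, fun hc => ?_, (hT.fs0 _).2 ⟨_, rfl⟩, fun hc => ?_,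
      fun hc => ?_, T none 0 (kk u v (Or.inr h1)), (hT.gs0 _).2 ⟨_, rfl⟩, ?_, ?_⟩
    · exact absurd (hT.inj _ _ _ _ _ _ hc).1 (by simp)
    · exact absurd (hT.inj _ _ _ _ _ _ hc).1 (by simp)
    · have := Option.some.inj (hT.inj _ _ _ _ _ _ hc).1
      subst this
      exact hi _ h1
    · rw [hT.gf, (Pm_some (kk u v (Or.inr h1)) u).1.2 (Or.inl rfl)]
    · rw [hT.gf, (Pm_some (kk u v (Or.inr h1)) v).1.2 (Or.inr rfl)]

end Conv

/-- the operation of a graph -/
theorem ex {p : ℕ} [Fact p.Prime] (r : ℕ → ℕ → Prop) (hi : ∀ u, ¬ r u u)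
    (hs : ∀ u v, r u v → r v u) (na : ∀ d d', ∃ v, v ≠ d ∧ v ≠ d' ∧ ¬ r d v) :
    ∃ μ, FA p μ ∧ ∃ π : ℕ ≃ {x // dm p μ x}, ∀ u v, rl p μ (π u) (π v) ↔ r u v := by
  classical
  have hc : Countable {S : Set ℕ // Cd r S} := by
    have h1 : Function.Injective fun S : {S : Set ℕ // Cd r S} =>
        (⟨S.1, S.2.fin⟩ : {S : Set ℕ // S.Finite}) := by
      intro S S' h
      exact Subtype.ext (congrArg (fun x => x.1) h)
    have h2 : Countable {S : Set ℕ // S.Finite} := by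
      have h3 : Function.Injective fun S : {S : Set ℕ // S.Finite} => S.2.toFinset := by
        intro S S' h
        exact Subtype.ext (Set.Finite.toFinset_inj.1 h)
      exact h3.countable
    exact h1.countable
  have : NeZero p := ⟨(Fact.out : p.Prime).ne_zero⟩
  have : Nonempty {S : Set ℕ // Cd r S} := ⟨k0⟩
  have hI : Infinite (Option ℕ × ZMod p × {S : Set ℕ // Cd r S}) := inferInstance
  have hC : Countable (Option ℕ × ZMod p × {S : Set ℕ // Cd r S}) := inferInstance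
  obtain ⟨Φ⟩ : Nonempty (ℕ ≃ Option ℕ × ZMod p × {S : Set ℕ // Cd r S}) :=
    nonempty_equiv_of_countable
  let μ : ℕ → ℕ → ℕ := fun x y => Φ.symm (rm p (Pm p r) (Φ x) (Φ y))
  let T : Option ℕ → ZMod p → {S : Set ℕ // Cd r S} → ℕ := fun o a S => Φ.symm (o, a, S)
  have hT : Co T μ := by
    refine ⟨fun o a S o' a' S' h => ?_, fun x => ?_, fun o a S o' a' S' => ?_⟩
    · have := Φ.symm.injective h
      simp only [Prod.mk.injEq] at this
      exact this
    · exact ⟨(Φ x).1, (Φ x).2.1, (Φ x).2.2, Φ.symm_apply_apply x⟩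
    · show Φ.symm (rm p (Pm p r) (Φ (Φ.symm (o, a, S))) (Φ (Φ.symm (o', a', S')))) = _
      rw [Φ.apply_symm_apply, Φ.apply_symm_apply]
      rfl
  have hinf : Infinite ℕ := inferInstance
  have hd := hT.dm hinf hs na
  have hinj : ∀ u v, T (some u) 0 k0 = T (some v) 0 k0 → u = v := fun u v h =>
    Option.some.inj (hT.inj _ _ _ _ _ _ h).1
  refine ⟨μ, ⟨fun x y z => ?_, ⟨_, hT.ps⟩, hT.uniq hinf hs na, fun m => ?_⟩, ?_⟩
  · show Φ.symm (rm p _ (Φ (Φ.symm _)) _) = Φ.symm (rm p _ _ (Φ (Φ.symm _)))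
    rw [Φ.apply_symm_apply, Φ.apply_symm_apply]
    congr 1
    unfold rm
    refine Prod.ext rfl (Prod.ext ?_ rfl)
    show _ + _ + _ = _ + _ + (_ + _ + _)
    ring
  · refine ⟨fun i => T (some i) 0 k0, fun i j h => ?_, fun i => (hd _).2 ⟨_, rfl⟩⟩
    exact Fin.ext (hinj _ _ h)
  · refine ⟨Equiv.ofBijective (fun u => ⟨T (some u) 0 k0, (hd _).2 ⟨u, rfl⟩⟩) ⟨?_, ?_⟩, ?_⟩
    · intro u v h
      exact hinj _ _ (congrArg Subtype.val h)
    · rintro ⟨x, hx⟩
      obtain ⟨v, rfl⟩ := (hd _).1 hx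
      exact ⟨v, rfl⟩
    · intro u v
      exact hT.rl hinf hi hs na u v

end Pool.Agent.H353.FV
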